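import Pool.Agent.W_fa9b59_hc.Mono

/-!
For every half-convex disk K the translative covering density of K equals the lattice covering
density of K. More generally this holds for every convex disk K contained in a half-convex disk K'
which has no thinner lattice covering than K.
-/

set_option autoImplicit false

open MeasureTheory

namespace Pool.Agent.Results.MP_fa9b59_co.HalfConvexDisks

/-- Translative covering density of K, exactly the left-hand side of the frozen statement
S12539: the infimum, over the sets T of translation vectors such that the translates t + K, t ∈ T,
cover the plane, of the lower density of the translates contained in a large disc. -/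
noncomputable def thetaT (K : Set (EuclideanSpace ℝ (Fin 2))) : ENNReal :=
  ⨅ (T : Set (EuclideanSpace ℝ (Fin 2)))
    (_ : ∀ x : EuclideanSpace ℝ (Fin 2), ∃ t ∈ T, x - t ∈ K),
    Filter.liminf
      (fun r : ℝ =>
        ((Set.encard {t : EuclideanSpace ℝ (Fin 2) |
            t ∈ T ∧ ∀ k ∈ K, t + k ∈ Metric.closedBall (0 : EuclideanSpace ℝ (Fin 2)) r}
            : ENNReal) * volume K)
          / volume (Metric.closedBall (0 : EuclideanSpace ℝ (Fin 2)) r))
      Filter.atTop

/-- Lattice covering density of K, exactly the right-hand side of the frozen statement S12539:
the infimum, over the bases b of the plane such that the translates of K by the lattice spanned by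
b cover the plane, of the area of K divided by the area of the parallelogram spanned by b. -/
noncomputable def thetaL (K : Set (EuclideanSpace ℝ (Fin 2))) : ENNReal :=
  ⨅ (b : Module.Basis (Fin 2) ℝ (EuclideanSpace ℝ (Fin 2)))
    (_ : ∀ x : EuclideanSpace ℝ (Fin 2), ∃ v ∈ Submodule.span ℤ (Set.range ⇑b), x - v ∈ K),
    volume K / volume (parallelepiped ⇑b)

/-- K is half-convex: for some linear function f, some vector v with f v = 1 and some real m, K
lies in the half-plane f ≥ m and the projection of K onto the line f = m parallel to v is
contained in K. For a convex disk K this says that K has a side lying in the line f = m and lies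
in the strip between the two parallels to v through the ends of this side. -/
def HalfConvex (K : Set (EuclideanSpace ℝ (Fin 2))) : Prop :=
  ∃ (f : EuclideanSpace ℝ (Fin 2) →ₗ[ℝ] ℝ) (v : EuclideanSpace ℝ (Fin 2)) (m : ℝ),
    f v = 1 ∧ (∀ x ∈ K, m ≤ f x) ∧ ∀ x ∈ K, x - (f x - m) • v ∈ K

/-- Let K and K' be convex disks, K contained in K', K' half-convex, and suppose that
thetaL K / area K is at most thetaL K' / area K' (that is, the thinnest lattice covering by K uses
no more translates per unit area than the thinnest lattice covering by K'). Then the translative
covering density of K equals its lattice covering density. For K' = K this is the statement for all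
half-convex disks. -/
theorem result :
    ∀ K K' : Set (EuclideanSpace ℝ (Fin 2)),
      Convex ℝ K → IsCompact K → (interior K).Nonempty → Convex ℝ K' → IsCompact K' →
      K ⊆ K' → HalfConvex K' → thetaL K / volume K ≤ thetaL K' / volume K' →
      thetaT K = thetaL K :=
  fun K K' hc hk hi hc' hk' hKK hH hL => HC60.main_hc_mono K K' hc hk hi hc' hk' hKK hH hL

end Pool.Agent.Results.MP_fa9b59_co.HalfConvexDisks
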