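import Pool.Agent.W_fa9b59_h88.Main

/-!
For every convex disk K the translative covering density of K is at least the area of K divided
by the supremum of the areas of the centrally symmetric convex subsets of K.
-/

set_option autoImplicit false

open MeasureTheory

namespace Pool.Agent.Results.MP_fa9b59_co.SymmetricSubsetBound

/-- Translative covering density of K, exactly the left-hand side of the frozen statement
S12539: the infimum, over the sets T of translation vectors such that the translates t + K, t ∈ T,
cover the plane, of the lower density of the translates contained in a large disc. -/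
noncomputable def thetaT (K : Set (EuclideanSpace ℝ (Fin 2))) : ENNReal :=
  ⨅ (T : Set (EuclideanSpace ℝ (Fin 2)))
    (_ : ∀ x : EuclideanSpace ℝ (Fin 2), ∃ t ∈ T, x - t ∈ K),
    Filter.liminf
      (fun r : ℝ =>
        ((Set.encard {t : EuclideanSpace ℝ (Fin 2) |
            t ∈ T ∧ ∀ k ∈ K, t + k ∈ Metric.closedBall (0 : EuclideanSpace ℝ (Fin 2)) r}
            : ENNReal) * volume K)
          / volume (Metric.closedBall (0 : EuclideanSpace ℝ (Fin 2)) r))
      Filter.atTop

/-- Supremum of the areas of the centrally symmetric convex subsets S of K (S is mapped to itself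
by x ↦ c - x for some c). -/
noncomputable def symMax (K : Set (EuclideanSpace ℝ (Fin 2))) : ENNReal :=
  ⨆ (S : Set (EuclideanSpace ℝ (Fin 2)))
    (_ : S ⊆ K ∧ Convex ℝ S ∧ ∃ c : EuclideanSpace ℝ (Fin 2), ∀ x ∈ S, c - x ∈ S), volume S

/-- For every convex disk K: area K / (largest area of a centrally symmetric convex subset of K)
is a lower bound for the translative covering density of K. -/
theorem result :
    ∀ K : Set (EuclideanSpace ℝ (Fin 2)),
      Convex ℝ K → IsCompact K → (interior K).Nonempty →
      volume K / symMax K ≤ thetaT K :=
  fun K hc hk hi => FB88.main_lower K hc hk hi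

end Pool.Agent.Results.MP_fa9b59_co.SymmetricSubsetBound
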