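import Pool.Agent.W_fa9b59_c3.TriS5

/-!
The Reuleaux triangle and, more generally, the intersection of three congruent discs centred at the
vertices of an equilateral triangle: the translative covering density equals the lattice covering
density. The same holds for every compact convex set between such a body (or an affine image of it)
and the affinely regular hexagon inscribed in it.
-/

set_option autoImplicit false

open MeasureTheory

namespace Pool.Agent.Results.MP_fa9b59_co.ThreeDiscBodies

/-- Translative covering density of K, exactly the left-hand side of the frozen statement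
S12539: the infimum, over the sets T of translation vectors such that the translates t + K, t ∈ T,
cover the plane, of the lower density of the translates contained in a large disc. -/
noncomputable def thetaT (K : Set (EuclideanSpace ℝ (Fin 2))) : ENNReal :=
  ⨅ (T : Set (EuclideanSpace ℝ (Fin 2)))
    (_ : ∀ x : EuclideanSpace ℝ (Fin 2), ∃ t ∈ T, x - t ∈ K),
    Filter.liminf
      (fun r : ℝ =>
        ((Set.encard {t : EuclideanSpace ℝ (Fin 2) |
            t ∈ T ∧ ∀ k ∈ K, t + k ∈ Metric.closedBall (0 : EuclideanSpace ℝ (Fin 2)) r}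
            : ENNReal) * volume K)
          / volume (Metric.closedBall (0 : EuclideanSpace ℝ (Fin 2)) r))
      Filter.atTop

/-- Lattice covering density of K, exactly the right-hand side of the frozen statement S12539:
the infimum, over the bases b of the plane such that the translates of K by the lattice spanned by
b cover the plane, of the area of K divided by the area of the parallelogram spanned by b. -/
noncomputable def thetaL (K : Set (EuclideanSpace ℝ (Fin 2))) : ENNReal :=
  ⨅ (b : Module.Basis (Fin 2) ℝ (EuclideanSpace ℝ (Fin 2)))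
    (_ : ∀ x : EuclideanSpace ℝ (Fin 2), ∃ v ∈ Submodule.span ℤ (Set.range ⇑b), x - v ∈ K),
    volume K / volume (parallelepiped ⇑b)

/-- The intersection of the three closed discs of radius ρ with centres P, Q, S. -/
def threeDiscs (P Q S : EuclideanSpace ℝ (Fin 2)) (ρ : ℝ) : Set (EuclideanSpace ℝ (Fin 2)) :=
  Metric.closedBall P ρ ∩ Metric.closedBall Q ρ ∩ Metric.closedBall S ρ

/-- The points x = p P + q Q + r S, p + q + r = 1, for which p² + p q + q², q² + q r + r² and
r² + r p + p² are at most 1/3 + t + t². If P Q S is an equilateral triangle with side d, this is the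
intersection of the three discs with centres P, Q, S and radius d (1/3 + t + t²)^(1/2). -/
def ThreeArc (P Q S : EuclideanSpace ℝ (Fin 2)) (t : ℝ) : Set (EuclideanSpace ℝ (Fin 2)) :=
  {x | ∃ p q r : ℝ, p + q + r = 1 ∧ p ^ 2 + p * q + q ^ 2 ≤ 1 / 3 + t + t ^ 2 ∧
    q ^ 2 + q * r + r ^ 2 ≤ 1 / 3 + t + t ^ 2 ∧ r ^ 2 + r * p + p ^ 2 ≤ 1 / 3 + t + t ^ 2 ∧
    x = p • P + q • Q + r • S}

/-- K contains the six points whose barycentric coordinates with respect to P, Q, S are the
permutations of 1/3 + t, 1/3, 1/3 - t (the vertices of an affinely regular hexagon). -/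
def HasHexagon (P Q S : EuclideanSpace ℝ (Fin 2)) (t : ℝ)
    (K : Set (EuclideanSpace ℝ (Fin 2))) : Prop :=
  (1 / 3 + t) • P + (1 / 3 : ℝ) • Q + (1 / 3 - t) • S ∈ K ∧
  (1 / 3 + t) • Q + (1 / 3 : ℝ) • S + (1 / 3 - t) • P ∈ K ∧
  (1 / 3 + t) • S + (1 / 3 : ℝ) • P + (1 / 3 - t) • Q ∈ K ∧
  (1 / 3 - t) • P + (1 / 3 : ℝ) • Q + (1 / 3 + t) • S ∈ K ∧
  (1 / 3 - t) • Q + (1 / 3 : ℝ) • S + (1 / 3 + t) • P ∈ K ∧
  (1 / 3 - t) • S + (1 / 3 : ℝ) • P + (1 / 3 + t) • Q ∈ K

/-- Let t > 0 and let P Q S be a triangle. Every compact convex set K with the hexagon of the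
permutations of (1/3 + t, 1/3, 1/3 - t) in K and K in ThreeArc P Q S t satisfies
thetaT (K) = thetaL (K) = area (K) / (3 t² |det (P - S, Q - S)|). In particular, for every
equilateral triangle P Q S with side d and every ρ > d / √3, the intersection K of the three discs
with centres P, Q, S and radius ρ (for ρ = d: the Reuleaux triangle) satisfies
thetaT (K) = thetaL (K) = area (K) / ((3 √3 / 2) (√(ρ² - d² / 12) - d / 2)²). -/
theorem result :
    (∀ (P Q S : EuclideanSpace ℝ (Fin 2)) (t : ℝ) (K : Set (EuclideanSpace ℝ (Fin 2))),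
      AffineIndependent ℝ ![P, Q, S] → 0 < t → Convex ℝ K → IsCompact K →
      HasHexagon P Q S t K → K ⊆ ThreeArc P Q S t →
      thetaT K = thetaL K ∧ thetaL K = volume K / ENNReal.ofReal (3 * t ^ 2 *
        |(P - S) 0 * (Q - S) 1 - (P - S) 1 * (Q - S) 0|)) ∧
    (∀ (P Q S : EuclideanSpace ℝ (Fin 2)) (d ρ : ℝ),
      0 < d → dist P Q = d → dist Q S = d → dist S P = d → 0 < ρ → d ^ 2 < 3 * ρ ^ 2 →
      thetaT (threeDiscs P Q S ρ) = thetaL (threeDiscs P Q S ρ) ∧
      thetaL (threeDiscs P Q S ρ) = volume (threeDiscs P Q S ρ) / ENNReal.ofReal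
        (3 * Real.sqrt 3 / 2 * (Real.sqrt (ρ ^ 2 - d ^ 2 / 12) - d / 2) ^ 2)) :=
  ⟨fun _ _ _ _ _ hA ht hc hk hH hK => NC31.arc_all (NT31.det_ne_of_indep hA) ht hc hk hH hK,
    fun _ _ _ _ _ hd h1 h2 h3 hρ h => NC31.td_self hd hρ h h1 h2 h3⟩

end Pool.Agent.Results.MP_fa9b59_co.ThreeDiscBodies
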