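import Pool.Agent.W_fa9b59_h31.MonoT

/-!
For every convex disk K close to a triangle the translative covering density of K equals the lattice
covering density of K; no symmetry and no flat part of the boundary is assumed.
-/

set_option autoImplicit false

open MeasureTheory

namespace Pool.Agent.Results.MP_fa9b59_co.TriangleNeighbourhoods

/-- Translative covering density of K, exactly the left-hand side of the frozen statement
S12539: the infimum, over the sets T of translation vectors such that the translates t + K, t ∈ T,
cover the plane, of the lower density of the translates contained in a large disc. -/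
noncomputable def thetaT (K : Set (EuclideanSpace ℝ (Fin 2))) : ENNReal :=
  ⨅ (T : Set (EuclideanSpace ℝ (Fin 2)))
    (_ : ∀ x : EuclideanSpace ℝ (Fin 2), ∃ t ∈ T, x - t ∈ K),
    Filter.liminf
      (fun r : ℝ =>
        ((Set.encard {t : EuclideanSpace ℝ (Fin 2) |
            t ∈ T ∧ ∀ k ∈ K, t + k ∈ Metric.closedBall (0 : EuclideanSpace ℝ (Fin 2)) r}
            : ENNReal) * volume K)
          / volume (Metric.closedBall (0 : EuclideanSpace ℝ (Fin 2)) r))
      Filter.atTop

/-- Lattice covering density of K, exactly the right-hand side of the frozen statement S12539: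
the infimum, over the bases b of the plane such that the translates of K by the lattice spanned by
b cover the plane, of the area of K divided by the area of the parallelogram spanned by b. -/
noncomputable def thetaL (K : Set (EuclideanSpace ℝ (Fin 2))) : ENNReal :=
  ⨅ (b : Module.Basis (Fin 2) ℝ (EuclideanSpace ℝ (Fin 2)))
    (_ : ∀ x : EuclideanSpace ℝ (Fin 2), ∃ v ∈ Submodule.span ℤ (Set.range ⇑b), x - v ∈ K),
    volume K / volume (parallelepiped ⇑b)

/-- K is near the triangle P Q R, with parameter t: K contains the points which divide the sides of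
the triangle in the ratio (1/3 - t) : (2/3 + t), from either end, and every point of K has
barycentric coordinates at least -(t / 10 ^ 9) ^ 2 with respect to P, Q, R. For t = 1/3 this says that
K contains the triangle P Q R and lies in a slightly larger homothetic triangle. -/
def NearTriangle (t : ℝ) (P Q R : EuclideanSpace ℝ (Fin 2))
    (K : Set (EuclideanSpace ℝ (Fin 2))) : Prop :=
  (1 / 3 - t) • P + (2 / 3 + t) • Q ∈ K ∧ (2 / 3 + t) • P + (1 / 3 - t) • Q ∈ K ∧
  (1 / 3 - t) • Q + (2 / 3 + t) • R ∈ K ∧ (2 / 3 + t) • Q + (1 / 3 - t) • R ∈ K ∧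
  (1 / 3 - t) • R + (2 / 3 + t) • P ∈ K ∧ (2 / 3 + t) • R + (1 / 3 - t) • P ∈ K ∧
  ∀ x ∈ K, ∃ p q r : ℝ, p + q + r = 1 ∧ -((t / 10 ^ 9) ^ 2) ≤ p ∧
    -((t / 10 ^ 9) ^ 2) ≤ q ∧ -((t / 10 ^ 9) ^ 2) ≤ r ∧ x = p • P + q • Q + r • R

/-- Let K' be a convex disk near a triangle, let K be a convex disk contained in K' and suppose that
thetaL K / area K is at most thetaL K' / area K' (that is, the thinnest lattice covering by K uses
no more translates per unit area than the thinnest lattice covering by K'). Then the translative
covering density of K equals its lattice covering density. For K' = K this is the statement for all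
convex disks near a triangle. -/
theorem result :
    ∀ (t : ℝ) (P Q R : EuclideanSpace ℝ (Fin 2)) (K K' : Set (EuclideanSpace ℝ (Fin 2))),
      0 < t → t ≤ 1 / 3 → AffineIndependent ℝ ![P, Q, R] →
      Convex ℝ K → IsCompact K → (interior K).Nonempty → Convex ℝ K' → IsCompact K' →
      K ⊆ K' → NearTriangle t P Q R K' → thetaL K / volume K ≤ thetaL K' / volume K' →
      thetaT K = thetaL K :=
  fun _ _ _ _ _ _ ht ht1 hA hc hk hi hc' hk' hKK hN hL =>
    NT31.main_tri_mono hc hk hi hc' hk' hKK (NT31.det_ne_of_indep hA) ht ht1 hN.1 hN.2.1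
      hN.2.2.1 hN.2.2.2.1 hN.2.2.2.2.1 hN.2.2.2.2.2.1 hN.2.2.2.2.2.2 hL

end Pool.Agent.Results.MP_fa9b59_co.TriangleNeighbourhoods
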